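import Mathlib
import Pool.Agent.Helper342.Imm.Classes

/-!
Holomorphic immersions of smooth affine hypersurfaces `{F = 1} ⊂ ℂ^{n+1}` into `ℂⁿ`, for three
classes of polynomials `F`.
-/

set_option autoImplicit false

namespace Pool.Agent.Results.MP_1994dd_an.QuasiHomogeneousClasses

open MvPolynomial

/-- After a biholomorphic change of coordinates `(x, y) = A(w)` of `ℂ^{n+1}`,
`F = P(x) + f(y)`, where `P` is any polynomial in the one variable `x` and `f` is
quasi-homogeneous of positive degree `d` in the `n` variables `y` (with positive integer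
weights). -/
def SumType {n : ℕ} (F : MvPolynomial (Fin (n + 1)) ℂ) : Prop :=
  ∃ (A B : (Fin (n + 1) → ℂ) → (Fin (n + 1) → ℂ)) (P : Polynomial ℂ)
    (f : MvPolynomial (Fin n) ℂ) (wt : Fin n → ℕ) (d : ℕ),
    Differentiable ℂ A ∧ Differentiable ℂ B ∧ (∀ w, B (A w) = w) ∧ (∀ w, A (B w) = w) ∧
    (∀ i, 0 < wt i) ∧ 0 < d ∧ IsWeightedHomogeneous wt f d ∧
    ∀ w, eval w F = P.eval (A w 0) + eval (fun i => A w i.succ) f

/-- After a biholomorphic change of coordinates `(x, y) = A(w)` of `ℂ^{n+1}`,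
`F = x g(y) + f(y)`, where `g` and `f` are quasi-homogeneous, for the same weights, of positive
degrees `e` and `d` in the `n` variables `y`. -/
def MonoidType {n : ℕ} (F : MvPolynomial (Fin (n + 1)) ℂ) : Prop :=
  ∃ (A B : (Fin (n + 1) → ℂ) → (Fin (n + 1) → ℂ))
    (g f : MvPolynomial (Fin n) ℂ) (wt : Fin n → ℕ) (e d : ℕ),
    Differentiable ℂ A ∧ Differentiable ℂ B ∧ (∀ w, B (A w) = w) ∧ (∀ w, A (B w) = w) ∧
    0 < e ∧ 0 < d ∧ IsWeightedHomogeneous wt g e ∧ IsWeightedHomogeneous wt f d ∧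
    ∀ w, eval w F = A w 0 * eval (fun i => A w i.succ) g + eval (fun i => A w i.succ) f

theorem result :
    ∀ (n : ℕ) (F : MvPolynomial (Fin (n + 1)) ℂ),
      (∀ w : Fin (n + 1) → ℂ, MvPolynomial.eval w F = 1 →
          ∃ i : Fin (n + 1), MvPolynomial.eval w (MvPolynomial.pderiv i F) ≠ 0) →
      (SumType F ∨ MonoidType F ∨ (n = 2 ∧ F.IsHomogeneous 3)) →
      ∃ f : (Fin (n + 1) → ℂ) → (Fin n → ℂ),
        Differentiable ℂ f ∧
        ∀ w : Fin (n + 1) → ℂ, MvPolynomial.eval w F = 1 →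
          ∀ v : Fin (n + 1) → ℂ,
            (∑ i : Fin (n + 1), v i * MvPolynomial.eval w (MvPolynomial.pderiv i F)) = 0 →
            fderiv ℂ f w v = 0 → v = 0 := by
  intro n F hF hc
  have hfd : ∀ w : Fin (n + 1) → ℂ, HasFDerivAt (fun w : Fin (n + 1) → ℂ => eval w F)
      (Helper342.Imm.CubicGrad.lin fun i => eval w (pderiv i F)) w := fun w =>
    Helper342.Imm.CubicGrad.hasFDerivAt_eval F w
  have hsm : ∀ w : Fin (n + 1) → ℂ, (fun w : Fin (n + 1) → ℂ => eval w F) w = 1 →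
      fderiv ℂ (fun w : Fin (n + 1) → ℂ => eval w F) w ≠ 0 := by
    classical
    intro w hw h0
    obtain ⟨i, hi⟩ := hF w hw
    apply hi
    rw [(hfd w).fderiv] at h0
    have h1 := congrArg (fun T : (Fin (n + 1) → ℂ) →L[ℂ] ℂ => T (Pi.single i 1)) h0
    simpa [Helper342.Imm.CubicGrad.lin_apply, Pi.single_apply] using h1
  have key : Helper342.Imm.HasImm n (fun w : Fin (n + 1) → ℂ => eval w F) := by
    rcases hc with h | h | ⟨rfl, h⟩
    · obtain ⟨A, B, P, f, wt, d, hA, hB, hBA, hAB, hwt, hd, hf, hw⟩ := h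
      have hG' : Differentiable ℂ (fun w : Fin (n + 1) → ℂ => P.eval (w 0) + Helper342.Imm.bT f w) :=
        fun w => (Helper342.Imm.sum_hasFDerivAt P f w).differentiableAt
      refine Helper342.Imm.HasImm.of_biholo A B hA hB hBA
        (G' := fun w : Fin (n + 1) → ℂ => P.eval (w 0) + Helper342.Imm.bT f w) hw hG' ?_
      exact Helper342.Imm.imm_sum P f wt d hwt hd hf
        (fun w h1 => Helper342.Imm.smooth_of_biholo A B hA hAB hw hG' hsm w h1)
    · obtain ⟨A, B, g, f, wt, e, d, hA, hB, hBA, hAB, he, hd, hg, hf, hw⟩ := h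
      obtain ⟨d', hd'⟩ := Nat.exists_eq_succ_of_ne_zero hd.ne'
      obtain ⟨e', he'⟩ := Nat.exists_eq_succ_of_ne_zero he.ne'
      rw [he'] at hg
      rw [hd'] at hf
      have hG' : Differentiable ℂ
          (fun w : Fin (n + 1) → ℂ => w 0 * Helper342.Imm.bT g w + Helper342.Imm.bT f w) := by
        have h0 : Differentiable ℂ (fun w : Fin (n + 1) → ℂ => w 0) := by fun_prop
        exact (h0.mul (Helper342.Imm.bT_differentiable g)).add (Helper342.Imm.bT_differentiable f)
      refine Helper342.Imm.HasImm.of_biholo A B hA hB hBA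
        (G' := fun w : Fin (n + 1) → ℂ => w 0 * Helper342.Imm.bT g w + Helper342.Imm.bT f w)
        hw hG' ?_
      exact Helper342.Imm.imm_monoid g f wt e' d' hg hf
    · exact Helper342.Imm.imm_ternary F h
  obtain ⟨Φ, h1, h2⟩ := key
  refine ⟨Φ, h1, fun w hw v hv hΦ => h2 w hw v ?_ hΦ⟩
  rw [(hfd w).fderiv, Helper342.Imm.CubicGrad.lin_apply, ← hv]
  exact Finset.sum_congr rfl fun i _ => mul_comm _ _

end Pool.Agent.Results.MP_1994dd_an.QuasiHomogeneousClasses
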